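import Mathlib
import Pool.Agent.H354R2.Pratt

/-!
# The least primes with digit sum 86, 104 and 137 end in 89

De Koninck's assertions (b) and (c) on the final digits of the least prime `ρ(k)` with digit sum
`k` are false: `ρ(86) = 6999999989`, `ρ(104) = 699999999989`, `ρ(137) = 3999999999999989`.
-/

namespace Pool.Agent.Results.MP_70678e_nt.LeastPrimeDigitSum

/-- `r` is the least prime number with decimal digit sum `k`, i.e. `r = ρ(k)`. -/
def IsRho (k r : ℕ) : Prop :=
  IsLeast {p : ℕ | p.Prime ∧ (Nat.digits 10 p).sum = k} r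

theorem ds_step (n : ℕ) : (Nat.digits 10 n).sum = n % 10 + (Nat.digits 10 (n / 10)).sum := by
  rcases Nat.eq_zero_or_pos n with rfl | h
  · simp
  · rw [Nat.digits_def' (by norm_num) h, List.sum_cons]

theorem ds_le : ∀ m n : ℕ, n < 10 ^ m → (Nat.digits 10 n).sum ≤ 9 * m := by
  intro m
  induction m with
  | zero =>
    intro n hn
    have : n = 0 := by simpa using hn
    subst this
    simp
  | succ m ih =>
    intro n hn
    rw [ds_step]
    have h1 := ih (n / 10) (by rw [pow_succ] at hn; omega)
    have h2 := Nat.mod_lt n (show 10 > 0 by norm_num)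
    omega

theorem ds_full : ∀ m n : ℕ, n < 10 ^ m → (Nat.digits 10 n).sum = 9 * m → n + 1 = 10 ^ m := by
  intro m
  induction m with
  | zero =>
    intro n hn _
    have : n = 0 := by simpa using hn
    subst this
    simp
  | succ m ih =>
    intro n hn h
    rw [ds_step] at h
    have h0 : n / 10 < 10 ^ m := by rw [pow_succ] at hn; omega
    have h1 := ds_le m (n / 10) h0
    have h2 := Nat.mod_lt n (show 10 > 0 by norm_num)
    have h3 := ih (n / 10) h0 (by omega)
    rw [pow_succ]
    omega

theorem ds_one : ∀ m n : ℕ, n < 10 ^ m → (Nat.digits 10 n).sum + 1 = 9 * m →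
    ∃ j < m, n + 1 + 10 ^ j = 10 ^ m := by
  intro m
  induction m with
  | zero =>
    intro n hn h
    omega
  | succ m ih =>
    intro n hn h
    rw [ds_step] at h
    have h0 : n / 10 < 10 ^ m := by rw [pow_succ] at hn; omega
    have h1 := ds_le m (n / 10) h0
    have h2 := Nat.mod_lt n (show 10 > 0 by norm_num)
    by_cases h9 : n % 10 = 9
    · obtain ⟨j, hj, hj2⟩ := ih (n / 10) h0 (by omega)
      refine ⟨j + 1, by omega, ?_⟩
      rw [pow_succ, pow_succ]
      omega
    · have h3 := ds_full m (n / 10) h0 (by omega)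
      refine ⟨0, by omega, ?_⟩
      rw [pow_succ, pow_zero]
      omega

theorem ds_top : ∀ m t q : ℕ, t < 10 ^ m →
    (Nat.digits 10 (t + 10 ^ m * q)).sum = (Nat.digits 10 t).sum + (Nat.digits 10 q).sum := by
  intro m
  induction m with
  | zero =>
    intro t q ht
    have : t = 0 := by simpa using ht
    subst this
    simp
  | succ m ih =>
    intro t q ht
    rw [ds_step, ds_step t]
    have e1 : (t + 10 ^ (m + 1) * q) % 10 = t % 10 := by
      have : 10 ^ (m + 1) * q = 10 * (10 ^ m * q) := by ring
      rw [this]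
      omega
    have e2 : (t + 10 ^ (m + 1) * q) / 10 = t / 10 + 10 ^ m * q := by
      have : 10 ^ (m + 1) * q = 10 * (10 ^ m * q) := by ring
      rw [this]
      omega
    rw [e1, e2, ih (t / 10) q (by rw [pow_succ] at ht; omega)]
    ring

theorem ds_digit {q : ℕ} (hq : q < 10) : (Nat.digits 10 q).sum = q := by
  rw [ds_step, Nat.mod_eq_of_lt hq, Nat.div_eq_of_lt hq]
  simp

/-- The least prime with digit sum `9 m + a` when the smallest candidates are composite. -/
theorem least {m a s : ℕ} (ha : a + 1 ≤ 9) (hs : s < m)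
    (hp : Nat.Prime ((a + 2) * 10 ^ m - 1 - 10 ^ s))
    (hds : (Nat.digits 10 ((a + 2) * 10 ^ m - 1 - 10 ^ s)).sum = 9 * m + a)
    (h0 : ¬ Nat.Prime ((a + 1) * 10 ^ m - 1))
    (h1 : ∀ j, s < j → j < m → ¬ Nat.Prime ((a + 2) * 10 ^ m - 1 - 10 ^ j)) :
    IsRho (9 * m + a) ((a + 2) * 10 ^ m - 1 - 10 ^ s) := by
  refine ⟨⟨hp, hds⟩, ?_⟩
  rintro p ⟨hpp, hps⟩
  by_contra hlt
  rw [not_le] at hlt
  have hpos : 0 < 10 ^ m := by positivity
  obtain ⟨q, hq⟩ : ∃ q, q = p / 10 ^ m := ⟨_, rfl⟩
  obtain ⟨t, ht⟩ : ∃ t, t = p % 10 ^ m := ⟨_, rfl⟩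
  have htl : t < 10 ^ m := by rw [ht]; exact Nat.mod_lt _ hpos
  have hpe : p = t + 10 ^ m * q := by rw [ht, hq]; exact (Nat.mod_add_div p (10 ^ m)).symm
  have hq1 : q < a + 2 := by
    rw [hq, Nat.div_lt_iff_lt_mul hpos]
    exact lt_of_lt_of_le hlt ((Nat.sub_le _ _).trans (Nat.sub_le _ _))
  have hsum : (Nat.digits 10 t).sum + q = 9 * m + a := by
    rw [hpe, ds_top m t q htl, ds_digit (q := q) (by omega)] at hps
    exact hps
  have hle := ds_le m t htl
  have hq2 : q = a ∨ q = a + 1 := by omega
  rcases hq2 with h | h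
  · have h2 := ds_full m t htl (by omega)
    apply h0
    have : (a + 1) * 10 ^ m - 1 = p := by
      have e : (a + 1) * 10 ^ m = 10 ^ m * a + 10 ^ m := by ring
      rw [hpe, h, e]
      omega
    rw [this]
    exact hpp
  · obtain ⟨j, hj, h2⟩ := ds_one m t htl (by omega)
    have e : (a + 2) * 10 ^ m = 10 ^ m * (a + 1) + 10 ^ m := by ring
    have h3 : (a + 2) * 10 ^ m - 1 - 10 ^ j = p := by
      rw [hpe, h, e]
      omega
    have h4 : s < j := by
      by_contra h4
      rw [not_lt] at h4
      have h5 : 10 ^ j ≤ 10 ^ s := Nat.pow_le_pow_right (by norm_num) h4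
      omega
    exact h1 j h4 hj (by rw [h3]; exact hpp)

theorem np {n : ℕ} (d : ℕ) (h1 : n % d = 0) (h2 : d ≠ 1) (h3 : d ≠ n) : ¬ n.Prime := by
  intro hn
  rcases (Nat.dvd_prime hn).mp (Nat.dvd_of_mod_eq_zero h1) with h | h
  exacts [h2 h, h3 h]

theorem prime86 : Nat.Prime 6999999989 :=
  Pool.Agent.H354R2.pratt 6999999989 2 40 [2, 2, 19, 373, 246931] (by
    intro q hq
    simp only [List.mem_cons, List.not_mem_nil, or_false] at hq
    rcases hq with rfl | rfl | rfl | rfl | rfl <;> norm_num) (by decide +kernel)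

theorem rho86 : IsRho 86 6999999989 := by
  refine least (m := 9) (a := 5) (s := 1) (by norm_num) (by norm_num) prime86
    (by norm_num) (np 7 (by norm_num) (by norm_num) (by norm_num)) ?_
  intro j hj1 hj2
  interval_cases j
  · exact np 3011 (by norm_num) (by norm_num) (by norm_num)
  · exact np 7 (by norm_num) (by norm_num) (by norm_num)
  · exact np 31 (by norm_num) (by norm_num) (by norm_num)
  · exact np 61 (by norm_num) (by norm_num) (by norm_num)
  · exact np 19 (by norm_num) (by norm_num) (by norm_num)
  · exact np 827 (by norm_num) (by norm_num) (by norm_num)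
  · exact np 6089 (by norm_num) (by norm_num) (by norm_num)

theorem prime104 : Nat.Prime 699999999989 := by
  have h1 : Nat.Prime 174999999997 := Pool.Agent.H354R2.pratt 174999999997 6 41 [2, 2, 3, 3, 23, 211352657] (by
    intro q hq
    simp only [List.mem_cons, List.not_mem_nil, or_false] at hq
    rcases hq with rfl | rfl | rfl | rfl | rfl | rfl <;> norm_num) (by decide +kernel)
  exact Pool.Agent.H354R2.pratt 699999999989 2 41 [2, 2, 174999999997] (by
    intro q hq
    simp only [List.mem_cons, List.not_mem_nil, or_false] at hq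
    rcases hq with rfl | rfl | rfl
    · norm_num
    · norm_num
    · exact h1) (by decide +kernel)

theorem rho104 : IsRho 104 699999999989 := by
  refine least (m := 11) (a := 5) (s := 1) (by norm_num) (by norm_num) prime104
    (by norm_num) (np 17 (by norm_num) (by norm_num) (by norm_num)) ?_
  intro j hj1 hj2
  interval_cases j
  · exact np 29 (by norm_num) (by norm_num) (by norm_num)
  · exact np 7 (by norm_num) (by norm_num) (by norm_num)
  · exact np 238531 (by norm_num) (by norm_num) (by norm_num)
  · exact np 53 (by norm_num) (by norm_num) (by norm_num)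
  · exact np 13 (by norm_num) (by norm_num) (by norm_num)
  · exact np 317 (by norm_num) (by norm_num) (by norm_num)
  · exact np 521 (by norm_num) (by norm_num) (by norm_num)
  · exact np 7 (by norm_num) (by norm_num) (by norm_num)
  · exact np 256079 (by norm_num) (by norm_num) (by norm_num)

theorem prime137 : Nat.Prime 3999999999999989 :=
  Pool.Agent.H354R2.pratt 3999999999999989 2 53 [2, 2, 599, 2131, 3733, 209861] (by
    intro q hq
    simp only [List.mem_cons, List.not_mem_nil, or_false] at hq
    rcases hq with rfl | rfl | rfl | rfl | rfl | rfl <;> norm_num) (by decide +kernel)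

theorem rho137 : IsRho 137 3999999999999989 := by
  refine least (m := 15) (a := 2) (s := 1) (by norm_num) (by norm_num) prime137
    (by norm_num) (np 83 (by norm_num) (by norm_num) (by norm_num)) ?_
  intro j hj1 hj2
  interval_cases j
  · exact np 7 (by norm_num) (by norm_num) (by norm_num)
  · exact np 19 (by norm_num) (by norm_num) (by norm_num)
  · exact np 313 (by norm_num) (by norm_num) (by norm_num)
  · exact np 23 (by norm_num) (by norm_num) (by norm_num)
  · exact np 21863 (by norm_num) (by norm_num) (by norm_num)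
  · exact np 29 (by norm_num) (by norm_num) (by norm_num)
  · exact np 7 (by norm_num) (by norm_num) (by norm_num)
  · exact np 53 (by norm_num) (by norm_num) (by norm_num)
  · exact np 4995349 (by norm_num) (by norm_num) (by norm_num)
  · exact np 827 (by norm_num) (by norm_num) (by norm_num)
  · exact np 17 (by norm_num) (by norm_num) (by norm_num)
  · exact np 1789 (by norm_num) (by norm_num) (by norm_num)
  · exact np 7 (by norm_num) (by norm_num) (by norm_num)

/-- `ρ(86) = 6999999989`, `ρ(104) = 699999999989` and `ρ(137) = 3999999999999989`, all ending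
in `989`; hence (b) and (c) are false. -/
theorem result :
    (IsRho 86 6999999989 ∧ IsRho 104 699999999989 ∧ IsRho 137 3999999999999989) ∧
    ¬ (∀ k : ℕ, 38 < k → ∀ r : ℕ, IsRho k r → r % 100 = 99) ∧
    ¬ (∀ k : ℕ, 59 < k → ∀ r : ℕ, IsRho k r → r % 1000 = 999) := by
  refine ⟨⟨rho86, rho104, rho137⟩, fun h => ?_, fun h => ?_⟩
  · have := h 86 (by norm_num) _ rho86
    norm_num at this
  · have := h 86 (by norm_num) _ rho86
    norm_num at this

end Pool.Agent.Results.MP_70678e_nt.LeastPrimeDigitSum
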